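import Pool.Agent.U591.AM.Stm

/-!
# Project AM, package F: from rational coordinates to permutations
-/

set_option autoImplicit false

open Finset

namespace Pool.Agent.U84.AM.F

open Pool.Agent.U591.AM

/-- a pattern 3142 in a permutation -/
def Occ (π : Pm) (i j p q : Fin π.1) : Prop :=
  i < j ∧ j < p ∧ p < q ∧ π.2 j < π.2 q ∧ π.2 q < π.2 i ∧ π.2 i < π.2 p

theorem sm4 {n : ℕ} {a b c d : Fin n} (h1 : a < b) (h2 : b < c) (h3 : c < d) :
    StrictMono (![a, b, c, d] : Fin 4 → Fin n) := by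
  rw [Fin.strictMono_iff_lt_succ]
  intro i
  fin_cases i
  · exact h1
  · exact h2
  · exact h3

theorem pattern_iff (π : Pm) : Pattern p3142 π ↔ ∃ i j p q, Occ π i j p q := by
  constructor
  · rintro ⟨f, hf⟩
    refine ⟨f (0 : Fin 4), f (1 : Fin 4), f (2 : Fin 4), f (3 : Fin 4),
      (hf.pos _ _).1 ?_, (hf.pos _ _).1 ?_, (hf.pos _ _).1 ?_,
      (hf.val _ _).1 ?_, (hf.val _ _).1 ?_, (hf.val _ _).1 ?_⟩
    · show (0 : Fin 4) < 1; decide
    · show (1 : Fin 4) < 2; decide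
    · show (2 : Fin 4) < 3; decide
    · show (![2, 0, 3, 1] : Fin 4 → Fin 4) 1 < (![2, 0, 3, 1] : Fin 4 → Fin 4) 3; decide
    · show (![2, 0, 3, 1] : Fin 4 → Fin 4) 3 < (![2, 0, 3, 1] : Fin 4 → Fin 4) 0; decide
    · show (![2, 0, 3, 1] : Fin 4 → Fin 4) 0 < (![2, 0, 3, 1] : Fin 4 → Fin 4) 2; decide
  · rintro ⟨i, j, p, q, h1, h2, h3, h4, h5, h6⟩
    have hg := sm4 h4 h5 h6
    have hv : ∀ a : Fin 4, π.2 ((![i, j, p, q] : Fin 4 → Fin π.1) a) =
        (![π.2 j, π.2 q, π.2 i, π.2 p] : Fin 4 → Fin π.1) ((![2, 0, 3, 1] : Fin 4 → Fin 4) a) := by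
      intro a
      fin_cases a <;> rfl
    refine ⟨(![i, j, p, q] : Fin 4 → Fin π.1), ?_, ?_⟩
    · intro a b
      exact ((sm4 h1 h2 h3).lt_iff_lt (a := a) (b := b)).symm
    · intro a b
      rw [hv a, hv b]
      exact (hg.lt_iff_lt (a := (![2, 0, 3, 1] : Fin 4 → Fin 4) a)
        (b := (![2, 0, 3, 1] : Fin 4 → Fin 4) b)).symm

theorem mem_iff (π : Pm) : π ∈ Avoiders {p3142} ↔ ∀ i j p q, ¬ Occ π i j p q := by
  unfold Avoiders
  simp only [Set.mem_ofPred_eq, Set.mem_singleton_iff, forall_eq, pattern_iff]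
  push Not
  rfl

theorem pattern_refl (α : Pm) : Pattern α α := ⟨id, fun _ _ => Iff.rfl, fun _ _ => Iff.rfl⟩

theorem pattern_trans {α β γ : Pm} (h1 : Pattern α β) (h2 : Pattern β γ) : Pattern α γ := by
  obtain ⟨f, hf⟩ := h1
  obtain ⟨g, hg⟩ := h2
  exact ⟨g ∘ f, fun i j => (hf.pos i j).trans (hg.pos _ _), fun i j => (hf.val i j).trans (hg.val _ _)⟩

theorem isClass : IsClass (Avoiders {p3142}) := by
  intro π hπ α hα β hβ h
  exact hπ β hβ (pattern_trans h hα)

theorem not_mem : p3142 ∉ Avoiders {p3142} := fun h => h p3142 rfl (pattern_refl _)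

theorem mem_2413 : p2413 ∈ Avoiders {p3142} := by
  rw [mem_iff]
  have h : ∀ i j p q : Fin 4, ¬ (i < j ∧ j < p ∧ p < q ∧
    (![1, 3, 0, 2] : Fin 4 → Fin 4) j < (![1, 3, 0, 2] : Fin 4 → Fin 4) q ∧
    (![1, 3, 0, 2] : Fin 4 → Fin 4) q < (![1, 3, 0, 2] : Fin 4 → Fin 4) i ∧
    (![1, 3, 0, 2] : Fin 4 → Fin 4) i < (![1, 3, 0, 2] : Fin 4 → Fin 4) p) := by decide
  exact h

theorem not_sub : ¬ Avoiders {p3142} ⊆ Avoiders {p2413, p3142} := by
  intro h
  exact h mem_2413 p2413 (by simp) (pattern_refl _)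

/-! ### merged coordinates give a permutation -/

section merge

variable {J : Type} [Fintype J]

theorem card_le (X Y : J → ℚ) (h : ∀ u v, Y u = Y v → X u = X v) :
    (univ.image X).card ≤ (univ.image Y).card := by
  classical
  refine Finset.card_le_card_of_injOn
    (fun s => if h : ∃ u, X u = s then Y h.choose else 0) ?_ ?_
  · intro s hs
    have hs' : ∃ u, X u = s := by simpa using hs
    simp only [hs', dif_pos]
    exact Finset.mem_coe.2 (mem_image_of_mem _ (mem_univ _))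
  · intro s hs t ht hst
    have hs' : ∃ u, X u = s := by simpa using hs
    have ht' : ∃ u, X u = t := by simpa using ht
    simp only [hs', ht', dif_pos] at hst
    have := h _ _ hst
    rw [hs'.choose_spec, ht'.choose_spec] at this
    exact this

theorem ranks (X Y : J → ℚ) (h : ∀ u v, X u = X v ↔ Y u = Y v) :
    ∃ (N : ℕ) (fX fY : J → Fin N) (τ : Equiv.Perm (Fin N)),
      Function.Surjective fX ∧ (∀ u v, X u < X v ↔ fX u < fX v) ∧
      (∀ u v, Y u < Y v ↔ fY u < fY v) ∧ (∀ u v, X u = X v → fX u = fX v) ∧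
      ∀ u, τ (fX u) = fY u := by
  classical
  have hc : (univ.image Y).card = (univ.image X).card :=
    le_antisymm (card_le Y X fun u v => (h u v).1) (card_le X Y fun u v => (h u v).2)
  obtain ⟨N, hN⟩ : ∃ N, N = (univ.image X).card := ⟨_, rfl⟩
  let e1 : Fin N ≃o (univ.image X : Finset ℚ) := (univ.image X).orderIsoOfFin hN.symm
  let e2 : Fin N ≃o (univ.image Y : Finset ℚ) := (univ.image Y).orderIsoOfFin (hc.trans hN.symm)
  let fX : J → Fin N := fun u => e1.symm ⟨X u, mem_image_of_mem _ (mem_univ _)⟩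
  let fY : J → Fin N := fun u => e2.symm ⟨Y u, mem_image_of_mem _ (mem_univ _)⟩
  have hsX : Function.Surjective fX := by
    intro s
    obtain ⟨u, -, hu⟩ := mem_image.1 (e1 s).2
    refine ⟨u, ?_⟩
    show e1.symm ⟨X u, _⟩ = s
    rw [OrderIso.symm_apply_eq]
    exact Subtype.ext hu
  have hsY : Function.Surjective fY := by
    intro s
    obtain ⟨u, -, hu⟩ := mem_image.1 (e2 s).2
    refine ⟨u, ?_⟩
    show e2.symm ⟨Y u, _⟩ = s
    rw [OrderIso.symm_apply_eq]
    exact Subtype.ext hu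
  have hltX : ∀ u v, X u < X v ↔ fX u < fX v := fun u v =>
    (OrderIso.lt_iff_lt e1.symm (x := (⟨X u, mem_image_of_mem _ (mem_univ _)⟩ :
      (univ.image X : Finset ℚ))) (y := ⟨X v, mem_image_of_mem _ (mem_univ _)⟩)).symm
  have hltY : ∀ u v, Y u < Y v ↔ fY u < fY v := fun u v =>
    (OrderIso.lt_iff_lt e2.symm (x := (⟨Y u, mem_image_of_mem _ (mem_univ _)⟩ :
      (univ.image Y : Finset ℚ))) (y := ⟨Y v, mem_image_of_mem _ (mem_univ _)⟩)).symm
  have heX : ∀ u v, X u = X v ↔ fX u = fX v := by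
    intro u v
    constructor
    · intro h1
      show e1.symm _ = e1.symm _
      congr 1
      exact Subtype.ext h1
    · intro h1
      have := e1.symm.injective h1
      exact congrArg Subtype.val this
  have heY : ∀ u v, Y u = Y v ↔ fY u = fY v := by
    intro u v
    constructor
    · intro h1
      show e2.symm _ = e2.symm _
      congr 1
      exact Subtype.ext h1
    · intro h1
      have := e2.symm.injective h1
      exact congrArg Subtype.val this
  let g : Fin N → Fin N := fun s => fY (Function.surjInv hsX s)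
  have hg : ∀ u, g (fX u) = fY u := by
    intro u
    have h1 : fX (Function.surjInv hsX (fX u)) = fX u := Function.surjInv_eq hsX _
    exact (heY _ _).1 ((h _ _).1 ((heX _ _).2 h1))
  have hgs : Function.Surjective g := by
    intro s
    obtain ⟨u, hu⟩ := hsY s
    exact ⟨fX u, (hg u).trans hu⟩
  refine ⟨N, fX, fY, Equiv.ofBijective g (Finite.surjective_iff_bijective.1 hgs), hsX, hltX, hltY,
    fun u v => (heX u v).1, ?_⟩
  intro u
  exact hg u

end merge

/-- the marked points -/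
def mk {k n m : ℕ} (f : Fin k → Fin n) (g : Fin k → Fin m) : Bool → Fin k → Fin n ⊕ Fin m :=
  fun b t => bif b then Sum.inr (g t) else Sum.inl (f t)

/-- positions -/
def xx (n m : ℕ) : Fin n ⊕ Fin m → ℚ := Sum.elim (fun i => ((i : ℕ) : ℚ)) (fun i => ((i : ℕ) : ℚ))

/-- values -/
def yy (π σ : Pm) : Fin π.1 ⊕ Fin σ.1 → ℚ :=
  Sum.elim (fun i => ((π.2 i : ℕ) : ℚ)) (fun i => ((σ.2 i : ℕ) : ℚ))

/-- the side of a point -/
def sd (n m : ℕ) : Fin n ⊕ Fin m → Bool := Sum.isRight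

theorem side_mk {k n m : ℕ} (f : Fin k → Fin n) (g : Fin k → Fin m) (b : Bool) (t : Fin k) :
    sd n m (mk f g b t) = b := by
  cases b <;> rfl

theorem xx_inj {n m : ℕ} : ∀ u v, sd n m u = sd n m v → xx n m u = xx n m v → u = v := by
  rintro (i | i) (j | j) h1 h2
  · simp only [xx, Sum.elim_inl, Nat.cast_inj] at h2
    rw [Fin.ext h2]
  · exact absurd h1 (by simp [sd])
  · exact absurd h1 (by simp [sd])
  · simp only [xx, Sum.elim_inr, Nat.cast_inj] at h2
    rw [Fin.ext h2]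

theorem yy_inj {π σ : Pm} : ∀ u v, sd π.1 σ.1 u = sd π.1 σ.1 v → yy π σ u = yy π σ v → u = v := by
  rintro (i | i) (j | j) h1 h2
  · simp only [yy, Sum.elim_inl, Nat.cast_inj] at h2
    rw [π.2.injective (Fin.ext h2)]
  · exact absurd h1 (by simp [sd])
  · exact absurd h1 (by simp [sd])
  · simp only [yy, Sum.elim_inr, Nat.cast_inj] at h2
    rw [σ.2.injective (Fin.ext h2)]

theorem finish {k : ℕ} {π σ : Pm} {f : Fin k → Fin π.1}
    {g : Fin k → Fin σ.1} (h : Merged (sd π.1 σ.1) (xx π.1 σ.1) (yy π σ) (mk f g)) :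
    ∃ τ ∈ Avoiders {p3142}, ∃ f' g', IsEmbedding π τ f' ∧ IsEmbedding σ τ g' ∧ f' ∘ f = g' ∘ g := by
  obtain ⟨X, Y, hX, hY, hm, hXe, hYe, hav⟩ := h
  have key : ∀ (P Q p q : Fin π.1 ⊕ Fin σ.1 → ℚ), Pres (sd π.1 σ.1) univ p P →
      (∀ u v, sd π.1 σ.1 u = sd π.1 σ.1 v → p u = p v → u = v) →
      (∀ t, Q (mk f g false t) = Q (mk f g true t)) →
      (∀ u v, sd π.1 σ.1 u ≠ sd π.1 σ.1 v → P u = P v →
        ∃ t, u = mk f g (sd π.1 σ.1 u) t ∧ v = mk f g (sd π.1 σ.1 v) t) →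
      ∀ u v, P u = P v → Q u = Q v := by
    intro P Q p q hP hinj hQ hPe u v huv
    by_cases hs : sd π.1 σ.1 u = sd π.1 σ.1 v
    · have h1 := hP u (mem_univ _) v (mem_univ _) hs
      have h2 := hP v (mem_univ _) u (mem_univ _) hs.symm
      rw [huv] at h1 h2
      have h3 : p u = p v := by
        rcases lt_trichotomy (p u) (p v) with h | h | h
        · exact absurd (h1.1 h) (lt_irrefl _)
        · exact h
        · exact absurd (h2.1 h) (lt_irrefl _)
      rw [hinj u v hs h3]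
    · obtain ⟨t, hu, hv⟩ := hPe u v hs huv
      cases hb : sd π.1 σ.1 u <;> cases hb' : sd π.1 σ.1 v
      · exact absurd (hb.trans hb'.symm) hs
      · rw [hb] at hu
        rw [hb'] at hv
        rw [hu, hv, hQ]
      · rw [hb] at hu
        rw [hb'] at hv
        rw [hu, hv, hQ]
      · exact absurd (hb.trans hb'.symm) hs
  have hXY : ∀ u v, X u = X v ↔ Y u = Y v := fun u v =>
    ⟨key X Y (xx π.1 σ.1) (yy π σ) hX xx_inj (fun t => (hm t).2) hXe u v,
      key Y X (yy π σ) (xx π.1 σ.1) hY yy_inj (fun t => (hm t).1) hYe u v⟩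
  obtain ⟨N, fX, fY, τ, hs, hltX, hltY, heX, hτ⟩ := ranks X Y hXY
  refine ⟨⟨N, τ⟩, ?_, fun i => fX (Sum.inl i), fun i => fX (Sum.inr i), ⟨?_, ?_⟩, ⟨?_, ?_⟩, ?_⟩
  · rw [mem_iff]
    rintro i j p q ⟨h1, h2, h3, h4, h5, h6⟩
    obtain ⟨i, rfl⟩ := hs i
    obtain ⟨j, rfl⟩ := hs j
    obtain ⟨p, rfl⟩ := hs p
    obtain ⟨q, rfl⟩ := hs q
    simp only [hτ] at h4 h5 h6
    exact hav i j p q ⟨(hltX _ _).2 h1, (hltX _ _).2 h2, (hltX _ _).2 h3, (hltY _ _).2 h4,
      (hltY _ _).2 h5, (hltY _ _).2 h6⟩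
  · intro i j
    show i < j ↔ fX (Sum.inl i) < fX (Sum.inl j)
    rw [← hltX, ← hX (Sum.inl i) (mem_univ _) (Sum.inl j) (mem_univ _) rfl]
    simp [xx]
  · intro i j
    show π.2 i < π.2 j ↔ τ (fX (Sum.inl i)) < τ (fX (Sum.inl j))
    rw [hτ, hτ, ← hltY, ← hY (Sum.inl i) (mem_univ _) (Sum.inl j) (mem_univ _) rfl]
    simp [yy]
  · intro i j
    show i < j ↔ fX (Sum.inr i) < fX (Sum.inr j)
    rw [← hltX, ← hX (Sum.inr i) (mem_univ _) (Sum.inr j) (mem_univ _) rfl]
    simp [xx]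
  · intro i j
    show σ.2 i < σ.2 j ↔ τ (fX (Sum.inr i)) < τ (fX (Sum.inr j))
    rw [hτ, hτ, ← hltY, ← hY (Sum.inr i) (mem_univ _) (Sum.inr j) (mem_univ _) rfl]
    simp [yy]
  · funext t
    exact heX _ _ (hm t).1

theorem av (π σ : Pm) (hπ : π ∈ Avoiders {p3142}) (hσ : σ ∈ Avoiders {p3142}) :
    Av (fun u v => sd π.1 σ.1 u = sd π.1 σ.1 v) univ (xx π.1 σ.1) (yy π σ) := by
  rw [mem_iff] at hπ hσ
  rintro (i | i) - (j | j) - (p | p) - (q | q) - h1 h2 h3 ⟨a1, a2, a3, a4, a5, a6⟩ <;>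
    simp only [sd, Sum.isRight_inl, Sum.isRight_inr, reduceCtorEq] at h1 h2 h3
  · simp only [xx, yy, Sum.elim_inl, Nat.cast_lt, Fin.val_fin_lt] at a1 a2 a3 a4 a5 a6
    exact hπ i j p q ⟨a1, a2, a3, a4, a5, a6⟩
  · simp only [xx, yy, Sum.elim_inr, Nat.cast_lt, Fin.val_fin_lt] at a1 a2 a3 a4 a5 a6
    exact hσ i j p q ⟨a1, a2, a3, a4, a5, a6⟩

theorem rot {J : Type} (x y : J → ℚ) (i j p q : J) :
    pat y (fun u => - x u) i j p q ↔ pat x y p i q j := by
  unfold pat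
  simp only [neg_lt_neg_iff]
  tauto

/-- the direct sum: merging without identification -/
theorem merged_zero (π σ : Pm) (hπ : π ∈ Avoiders {p3142}) (hσ : σ ∈ Avoiders {p3142})
    (f : Fin 0 → Fin π.1) (g : Fin 0 → Fin σ.1) :
    Merged (sd π.1 σ.1) (xx π.1 σ.1) (yy π σ) (mk f g) := by
  rw [mem_iff] at hπ hσ
  refine ⟨Sum.elim (fun i => ((i : ℕ) : ℚ)) (fun i => ((π.1 + (i : ℕ) : ℕ) : ℚ)),
    Sum.elim (fun i => ((π.2 i : ℕ) : ℚ)) (fun i => ((π.1 + (σ.2 i : ℕ) : ℕ) : ℚ)),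
    ?_, ?_, fun t => t.elim0, ?_, ?_, ?_⟩
  · rintro (i | i) - (j | j) - h
    · rfl
    · exact absurd h (by simp [sd])
    · exact absurd h (by simp [sd])
    · simp [xx]
  · rintro (i | i) - (j | j) - h
    · rfl
    · exact absurd h (by simp [sd])
    · exact absurd h (by simp [sd])
    · simp [yy]
  · rintro (i | i) (j | j) h1 h2
    · exact absurd rfl h1
    · simp only [Sum.elim_inl, Sum.elim_inr, Nat.cast_inj] at h2
      have := i.2
      omega
    · simp only [Sum.elim_inl, Sum.elim_inr, Nat.cast_inj] at h2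
      have := j.2
      omega
    · exact absurd rfl h1
  · rintro (i | i) (j | j) h1 h2
    · exact absurd rfl h1
    · simp only [Sum.elim_inl, Sum.elim_inr, Nat.cast_inj] at h2
      have := (π.2 i).2
      omega
    · simp only [Sum.elim_inl, Sum.elim_inr, Nat.cast_inj] at h2
      have := (π.2 j).2
      omega
    · exact absurd rfl h1
  · rintro (i | i) (j | j) (p | p) (q | q) ⟨a1, a2, a3, a4, a5, a6⟩ <;>
      simp only [Sum.elim_inl, Sum.elim_inr, Nat.cast_lt] at a1 a2 a3 a4 a5 a6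
    · exact hπ i j p q ⟨a1, a2, a3, a4, a5, a6⟩
    all_goals first
      | (exact hσ i j p q ⟨Fin.lt_def.2 (by omega), Fin.lt_def.2 (by omega),
          Fin.lt_def.2 (by omega), Fin.lt_def.2 (by omega), Fin.lt_def.2 (by omega),
          Fin.lt_def.2 (by omega)⟩)
      | (exfalso; omega)

theorem rotated (π σ : Pm) (f : Fin 2 → Fin π.1) (g : Fin 2 → Fin σ.1)
    (h : Merged (sd π.1 σ.1) (yy π σ) (fun u => - xx π.1 σ.1 u)
      (mk (fun t => f (1 - t)) (fun t => g (1 - t)))) :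
    Merged (sd π.1 σ.1) (xx π.1 σ.1) (yy π σ) (mk f g) := by
  obtain ⟨X, Y, hX, hY, hm, hXe, hYe, hav⟩ := h
  have hmk : ∀ b t, mk f g b t = mk (fun t => f (1 - t)) (fun t => g (1 - t)) b (1 - t) := by
    intro b t
    cases b <;> simp [mk]
  refine ⟨fun u => - Y u, X, ?_, hX, ?_, ?_, ?_, ?_⟩
  · intro u hu v hv huv
    have := hY v hv u hu huv.symm
    simp only [neg_lt_neg_iff] at this ⊢
    exact this
  · intro t
    have := hm (1 - t)
    rw [hmk, hmk]
    exact ⟨congrArg _ this.2, this.1⟩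
  · intro u v h1 h2
    obtain ⟨t, hu, hv⟩ := hYe u v h1 (neg_injective h2)
    refine ⟨1 - t, ?_, ?_⟩
    · rw [hmk, sub_sub_cancel]; exact hu
    · rw [hmk, sub_sub_cancel]; exact hv
  · intro u v h1 h2
    obtain ⟨t, hu, hv⟩ := hXe u v h1 h2
    refine ⟨1 - t, ?_, ?_⟩
    · rw [hmk, sub_sub_cancel]; exact hu
    · rw [hmk, sub_sub_cancel]; exact hv
  · intro i j p q hp
    refine hav j q i p ?_
    have := (rot (fun u => - Y u) X j q i p).2 hp
    simpa using this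

theorem t_F : S_F := by
  intro hT2 hT1
  refine ⟨isClass, ?_, not_sub, ?_⟩
  swap
  · intro h
    exact not_mem (h ▸ Set.mem_univ _)
  rintro ⟨k, α⟩ - hk π hπ σ hσ f g hf hg
  have hk' : k ≤ 2 := hk
  change Fin k → Fin π.1 at f
  change Fin k → Fin σ.1 at g
  rcases (by omega : k = 0 ∨ k = 1 ∨ k = 2) with rfl | rfl | rfl
  · exact finish (merged_zero π σ hπ hσ f g)
  · exact finish (hT1 _ (sd π.1 σ.1) (xx π.1 σ.1) (yy π σ) (mk f g) (side_mk f g)
      xx_inj yy_inj (av π σ hπ hσ))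
  · have hf1 : f 0 < f 1 := (hf.pos (0 : Fin 2) (1 : Fin 2)).1 (show (0 : Fin 2) < 1 by decide)
    have hg1 : g 0 < g 1 := (hg.pos (0 : Fin 2) (1 : Fin 2)).1 (show (0 : Fin 2) < 1 by decide)
    rcases lt_or_gt_of_ne (α.injective.ne (show (0 : Fin 2) ≠ 1 by decide)) with h | h
    · have hf2 : π.2 (f 0) < π.2 (f 1) := (hf.val (0 : Fin 2) (1 : Fin 2)).1 h
      have hg2 : σ.2 (g 0) < σ.2 (g 1) := (hg.val (0 : Fin 2) (1 : Fin 2)).1 h
      refine finish (hT2 _ (sd π.1 σ.1) (xx π.1 σ.1) (yy π σ) (mk f g) (side_mk f g)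
        ?_ ?_ xx_inj yy_inj (av π σ hπ hσ))
      · intro b
        cases b
        · simpa [xx, mk] using hf1
        · simpa [xx, mk] using hg1
      · intro b
        cases b
        · simpa [yy, mk] using hf2
        · simpa [yy, mk] using hg2
    · have hf2 : π.2 (f 1) < π.2 (f 0) := (hf.val (1 : Fin 2) (0 : Fin 2)).1 h
      have hg2 : σ.2 (g 1) < σ.2 (g 0) := (hg.val (1 : Fin 2) (0 : Fin 2)).1 h
      refine finish (rotated π σ f g (hT2 _ (sd π.1 σ.1) (yy π σ)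
        (fun u => - xx π.1 σ.1 u) (mk (fun t => f (1 - t)) (fun t => g (1 - t)))
        (side_mk _ _) ?_ ?_ yy_inj ?_ ?_))
      · intro b
        cases b
        · simpa [yy, mk] using hf2
        · simpa [yy, mk] using hg2
      · intro b
        cases b
        · simpa [xx, mk] using hf1
        · simpa [xx, mk] using hg1
      · intro u v h1 h2
        exact xx_inj u v h1 (neg_injective h2)
      · intro i _ j _ p _ q _ h1 h2 h3 hp
        rw [rot] at hp
        exact av π σ hπ hσ p (mem_univ _) i (mem_univ _) q (mem_univ _) j (mem_univ _)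
          h2.symm (h2.symm.trans h3) (h2.symm.trans h1) hp

end Pool.Agent.U84.AM.F

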